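import Pool.Agent.V11225.MS.Defs

/-!
# Maximal strip recovery on two permutations: patterns
-/

namespace Pool.Agent.V11225.MS

/-- a good pattern can be cut into blocks -/
theorem blocks {m : ℕ} {w : List ℕ} (hw : w.Perm (List.range m)) (hg : Gd w) :
    ∃ B B' : List (List ℕ), B.Perm B' ∧ (∀ b ∈ B, 2 ≤ b.length) ∧ B.flatten = List.range m ∧
      B'.flatten = w := by
  have hnd : w.Nodup := hw.nodup_iff.2 List.nodup_range
  obtain ⟨B', hB', hint⟩ := cut w.length w le_rfl hnd hg
  let le : List ℕ → List ℕ → Prop := fun b c => b.headD 0 ≤ c.headD 0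
  haveI : DecidableRel le := fun b c => Nat.decLe _ _
  haveI : Std.Total le := ⟨fun b c => Nat.le_total _ _⟩
  haveI : IsTrans (List ℕ) le := ⟨fun b c d h1 h2 => Nat.le_trans h1 h2⟩
  let B := B'.insertionSort le
  have hperm : B.Perm B' := List.perm_insertionSort _ _
  have hsort : B.Pairwise le := List.pairwise_insertionSort _ _
  have hint' : ∀ b ∈ B, ∃ a l, 2 ≤ l ∧ b = List.range' a l := fun b hb =>
    hint b (hperm.mem_iff.1 hb)
  refine ⟨B, B', hperm, ?_, ?_, hB'⟩
  · intro b hb
    obtain ⟨a, l, hl, rfl⟩ := hint' b hb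
    rwa [List.length_range']
  · have hflat : B.flatten.Perm (List.range m) := by
      have h1 := hperm.flatten
      rw [hB'] at h1
      exact h1.trans hw
    have hndB : B.flatten.Nodup := hflat.nodup_iff.2 List.nodup_range
    have hdis := (List.nodup_flatten.1 hndB).2
    have hlt : B.flatten.Pairwise (· < ·) := by
      rw [List.pairwise_flatten]
      refine ⟨?_, ?_⟩
      · intro b hb
        obtain ⟨a, l, hl, rfl⟩ := hint' b hb
        exact List.pairwise_lt_range'
      · have hboth := hsort.and hdis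
        refine hboth.imp_of_mem ?_
        rintro b c hb hc ⟨hle, hd⟩ x hx y hy
        obtain ⟨a, l, hl, rfl⟩ := hint' b hb
        obtain ⟨a', l', hl', rfl⟩ := hint' c hc
        have e1 : (List.range' a l).headD 0 = a := by
          cases l with
          | zero => omega
          | succ l => rw [List.range'_succ]; rfl
        have e2 : (List.range' a' l').headD 0 = a' := by
          cases l' with
          | zero => omega
          | succ l' => rw [List.range'_succ]; rfl
        simp only [le, e1, e2] at hle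
        rw [List.mem_range'_1] at hx hy
        by_contra hcon
        push Not at hcon
        refine hd (a := a') ?_ ?_
        · rw [List.mem_range'_1]
          omega
        · rw [List.mem_range'_1]
          omega
    exact hlt.eq_of_mem_iff List.pairwise_lt_range fun a => hflat.mem_iff

/-- sublists by positions -/
theorem sub_of_idx (l : List ℕ) : ∀ (is : List ℕ), is.Pairwise (· < ·) →
    (∀ i ∈ is, i < l.length) → (is.map fun i => l.getD i 0).Sublist l := by
  intro is h hb
  let js : List (Fin l.length) := is.pmap (fun i hi => ⟨i, hi⟩) hb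
  have h1 : js.Pairwise (· < ·) := by
    rw [List.pairwise_pmap]
    exact h.imp fun hab _ _ => hab
  have h2 := List.map_getElem_sublist h1
  have h3 : js.map (fun j => l[j]) = is.map fun i => l.getD i 0 := by
    simp only [js]
    rw [List.map_pmap]
    rw [← List.pmap_eq_map (p := fun _ => True) (H := fun _ _ => trivial)]
    refine List.pmap_congr_left _ ?_
    intro a _ ha _
    change l[a] = l.getD a 0
    rw [List.getD_eq_getElem _ _ ha]
  rw [← h3]
  exact h2

/-- the position in the second genome -/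
def Yf (G₁ G₂ : List ℕ) (t : ℕ) : ℕ := G₂.idxOf (G₁.getD t 0)

/-- an embedding of a pattern -/
def Emb (G₁ G₂ : List ℕ) (m : ℕ) (w : List ℕ) (x : ℕ → ℕ) : Prop :=
  (∀ i < m, x i < G₁.length) ∧ (∀ i j, i < j → j < m → x i < x j) ∧
    w.Pairwise fun i j => Yf G₁ G₂ (x i) < Yf G₁ G₂ (x j)

theorem msr_of_emb {G₁ G₂ : List ℕ} (hp : G₂.Perm G₁) {m : ℕ} {w : List ℕ} {x : ℕ → ℕ}
    (hw : w.Perm (List.range m)) (hg : Gd w) (hx : Emb G₁ G₂ m w x) {k : ℕ} (hk : k ≤ m) :
    MSR ((G₁, G₂), k) := by
  obtain ⟨B, B', h1, h2, h3, h4⟩ := blocks hw hg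
  obtain ⟨x1, x2, x3⟩ := hx
  let g : ℕ → ℕ := fun i => G₁.getD (x i) 0
  refine ⟨(List.range m).map g, w.map g, ?_, ?_, ⟨B.map (List.map g), B'.map (List.map g), ?_, ?_,
    h1.map _, ?_⟩, ?_⟩
  · have h5 := sub_of_idx G₁ ((List.range m).map x) ?_ ?_
    · rw [List.map_map] at h5
      exact h5
    · rw [List.pairwise_map]
      have h6 : (List.range m).Pairwise (fun i j => i < j) := List.pairwise_lt_range
      refine h6.imp_of_mem ?_
      intro a b _ hb hab
      exact x2 a b hab (List.mem_range.1 hb)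
    · intro i hi
      obtain ⟨j, hj, rfl⟩ := List.mem_map.1 hi
      exact x1 j (List.mem_range.1 hj)
  · have hmem : ∀ j ∈ w, j < m := fun j hj => List.mem_range.1 (hw.mem_iff.1 hj)
    have h7 : ∀ j ∈ w, G₁.getD (x j) 0 ∈ G₂ := by
      intro j hj
      rw [hp.mem_iff, List.getD_eq_getElem _ _ (x1 j (hmem j hj))]
      exact List.getElem_mem _
    have h5 := sub_of_idx G₂ (w.map fun i => Yf G₁ G₂ (x i)) ?_ ?_
    · rw [List.map_map] at h5
      have h6 : w.map ((fun i => G₂.getD i 0) ∘ fun i => Yf G₁ G₂ (x i)) = w.map g := by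
        refine List.map_congr_left fun j hj => ?_
        have h8 := List.idxOf_lt_length_of_mem (h7 j hj)
        change G₂.getD (G₂.idxOf (G₁.getD (x j) 0)) 0 = G₁.getD (x j) 0
        rw [List.getD_eq_getElem _ _ h8, List.getElem_idxOf]
      rw [h6] at h5
      exact h5
    · rw [List.pairwise_map]
      exact x3
    · intro i hi
      obtain ⟨j, hj, rfl⟩ := List.mem_map.1 hi
      exact List.idxOf_lt_length_of_mem (h7 j hj)
  · rw [← List.map_flatten, h3]
  · rw [← List.map_flatten, h4]
  · intro b hb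
    obtain ⟨c, hc, rfl⟩ := List.mem_map.1 hb
    rw [List.length_map]
    exact h2 c hc
  · rw [List.length_map, List.length_range]
    exact hk

/-! ### From solutions to patterns -/

theorem pairwise_idxOf {l : List ℕ} (h : l.Nodup) :
    l.Pairwise fun a b => l.idxOf a < l.idxOf b := by
  rw [List.pairwise_iff_getElem]
  intro i j hi hj hij
  rw [h.idxOf_getElem i hi, h.idxOf_getElem j hj]
  exact hij

theorem map_idxOf {l : List ℕ} (h : l.Nodup) : l.map (fun a => l.idxOf a) = List.range l.length := by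
  refine List.ext_getElem (by simp) ?_
  intro i h1 h2
  rw [List.length_map] at h1
  simp [h.idxOf_getElem i h1]

theorem infix_map {a b : ℕ} {l : List ℕ} (f : ℕ → ℕ) (h : [a, b] <:+: l) :
    [f a, f b] <:+: l.map f := by
  obtain ⟨s, t, rfl⟩ := h
  exact ⟨s.map f, t.map f, by simp⟩

theorem infix_range {a b m : ℕ} (h : [a, b] <:+: List.range m) : b = a + 1 := by
  obtain ⟨s, t, h⟩ := h
  have hlen : s.length + 2 + t.length = m := by
    have := congrArg List.length h
    simp at this
    omega
  have e1 : (s ++ [a, b] ++ t)[s.length]? = some a := by simp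
  have e2 : (s ++ [a, b] ++ t)[s.length + 1]? = some b := by
    rw [List.append_assoc, List.getElem?_append_right (by omega)]
    simp
  rw [h, List.getElem?_range (by omega)] at e1 e2
  simp only [Option.some.injEq] at e1 e2
  omega

theorem infix_of_mem {B : List (List ℕ)} {b : List ℕ} (hb : b ∈ B) : b <:+: B.flatten := by
  obtain ⟨P, Q, rfl⟩ := List.append_of_mem hb
  exact ⟨P.flatten, Q.flatten, by simp⟩

/-- an element of a list of length at least two has a neighbour -/
theorem neighbour : ∀ (b : List ℕ) (a : ℕ), a ∈ b → 2 ≤ b.length →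
    ∃ c, [a, c] <:+: b ∨ [c, a] <:+: b
  | [], _, h, _ => absurd h List.not_mem_nil
  | [_], _, _, h => by simp at h
  | [x, y], a, h, _ => by
    rcases List.mem_cons.1 h with rfl | h
    · exact ⟨y, Or.inl (List.infix_refl _)⟩
    · rw [List.mem_singleton] at h
      subst h
      exact ⟨x, Or.inr (List.infix_refl _)⟩
  | x :: y :: z :: l, a, h, _ => by
    rcases List.mem_cons.1 h with rfl | h
    · exact ⟨y, Or.inl ⟨[], z :: l, rfl⟩⟩
    · obtain ⟨c, hc⟩ := neighbour (y :: z :: l) a h (by simp)
      refine ⟨c, ?_⟩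
      rcases hc with hc | hc
      · exact Or.inl (List.infix_cons hc)
      · exact Or.inr (List.infix_cons hc)

theorem emb_of_msr {G₁ G₂ : List ℕ} (hnd : G₁.Nodup) (hp : G₂.Perm G₁) {k : ℕ}
    (h : MSR ((G₁, G₂), k)) : ∃ (m : ℕ) (w : List ℕ) (x : ℕ → ℕ), k ≤ m ∧ m ≤ k + 1 ∧
      w.Perm (List.range m) ∧ Gd w ∧ Emb G₁ G₂ m w x := by
  obtain ⟨S₁, S₂, hs1, hs2, ⟨C, C', rfl, rfl, hpC, hC2⟩, hk⟩ := h
  obtain ⟨B, B', hB, hB2, g1, g2, g3, g4⟩ := shrink C.flatten.length le_rfl hpC hC2 hk
  have t1 : B.flatten.Sublist G₁ := g1.trans hs1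
  have t2 : B'.flatten.Sublist G₂ := g2.trans hs2
  have hnd2 : G₂.Nodup := hp.nodup_iff.2 hnd
  have n1 : B.flatten.Nodup := hnd.sublist t1
  have hfl : B'.flatten.Perm B.flatten := hB.symm.flatten
  set l := B.flatten with hl
  set l' := B'.flatten with hl'
  let idx : ℕ → ℕ := fun a => l.idxOf a
  let x : ℕ → ℕ := fun i => G₁.idxOf (l.getD i 0)
  have hx : ∀ i < l.length, x i < G₁.length := by
    intro i hi
    refine List.idxOf_lt_length_of_mem ?_
    rw [List.getD_eq_getElem _ _ hi]
    exact t1.subset (List.getElem_mem _)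
  have hxa : ∀ a ∈ l, x (idx a) = G₁.idxOf a := by
    intro a ha
    have h1 := List.idxOf_lt_length_of_mem ha
    simp only [x, idx]
    rw [List.getD_eq_getElem _ _ h1, List.getElem_idxOf]
  have hY : ∀ a ∈ l, Yf G₁ G₂ (x (idx a)) = G₂.idxOf a := by
    intro a ha
    have h1 := List.idxOf_lt_length_of_mem (t1.subset ha)
    unfold Yf
    rw [hxa a ha, List.getD_eq_getElem _ _ h1, List.getElem_idxOf]
  refine ⟨l.length, l'.map idx, x, g3, g4, ?_, ?_, hx, ?_, ?_⟩
  · rw [← map_idxOf n1]
    exact hfl.map _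
  · -- partners
    intro i hi
    obtain ⟨a, ha, rfl⟩ := List.mem_map.1 hi
    have ha' : a ∈ l' := ha
    obtain ⟨b, hb, hab⟩ := List.mem_flatten.1 (hl' ▸ ha')
    have hb' : b ∈ B := hB.mem_iff.2 hb
    obtain ⟨c, hc | hc⟩ := neighbour b a hab (hB2 b hb')
    · left
      have h1 : [a, c] <:+: l := hc.trans (infix_of_mem hb')
      have h2 : [a, c] <:+: l' := hc.trans (infix_of_mem hb)
      have h3 := infix_map idx h1
      have h4 := infix_map idx h2
      rw [map_idxOf n1] at h3
      rw [infix_range h3] at h4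
      exact h4
    · right
      have h1 : [c, a] <:+: l := hc.trans (infix_of_mem hb')
      have h2 : [c, a] <:+: l' := hc.trans (infix_of_mem hb)
      have h3 := infix_map idx h1
      have h4 := infix_map idx h2
      rw [map_idxOf n1] at h3
      have h5 := infix_range h3
      refine ⟨by omega, ?_⟩
      rw [h5, Nat.add_sub_cancel]
      rw [h5] at h4
      exact h4
  · intro i j hij hj
    have h1 := (List.Pairwise.sublist t1 (pairwise_idxOf hnd))
    rw [List.pairwise_iff_getElem] at h1
    have h2 := h1 i j (hij.trans hj) hj hij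
    simp only [x]
    rw [List.getD_eq_getElem _ _ hj, List.getD_eq_getElem _ _ (hij.trans hj)]
    exact h2
  · rw [List.pairwise_map]
    have h1 := (List.Pairwise.sublist t2 (pairwise_idxOf hnd2))
    refine h1.imp_of_mem ?_
    intro a b ha hb hab
    rw [hY a (hfl.mem_iff.1 ha), hY b (hfl.mem_iff.1 hb)]
    exact hab

end Pool.Agent.V11225.MS
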