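import Pool.Agent.V11225.MS.Core
import Pool.Agent.V11225.MS.Pat

/-!
# Maximal strip recovery on two permutations: the algorithm
-/

namespace Pool.Agent.V11225.MS

/-! ### Lists of digits -/

/-- one step -/
def dstep (b : ℕ) (s : ℕ × List ℕ) : ℕ × List ℕ := (s.1 / b, s.1 % b :: s.2)

/-- the list of length `L` with the code `c` -/
def digs (b L c : ℕ) : List ℕ := ((dstep b)^[L] (c, [])).2

theorem dstep_length (b : ℕ) : ∀ (L : ℕ) (s : ℕ × List ℕ),
    ((dstep b)^[L] s).2.length = L + s.2.length
  | 0, s => by simp
  | L + 1, s => by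
    rw [Function.iterate_succ_apply, dstep_length b L]
    unfold dstep
    simp only [List.length_cons]
    omega

theorem digs_length (b L c : ℕ) : (digs b L c).length = L := by
  unfold digs
  rw [dstep_length]
  simp

theorem dstep_surj (b : ℕ) (hb : 0 < b) : ∀ (l acc : List ℕ), (∀ a ∈ l, a < b) →
    ∃ c < b ^ l.length, ((dstep b)^[l.length] (c, acc)).2 = l ++ acc := by
  intro l
  induction l using List.reverseRecOn with
  | nil =>
    intro acc _
    exact ⟨0, by simp, rfl⟩
  | append_singleton l d ih =>
    intro acc h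
    have hd : d < b := h d (by simp)
    obtain ⟨c, hc, he⟩ := ih (d :: acc) (fun a ha => h a (by simp [ha]))
    have e1 : (l ++ [d]).length = l.length + 1 := by simp
    refine ⟨d + b * c, ?_, ?_⟩
    · rw [e1, pow_succ]
      have h1 : c + 1 ≤ b ^ l.length := hc
      have h2 := Nat.mul_le_mul_left b h1
      rw [Nat.mul_add, Nat.mul_one] at h2
      rw [Nat.mul_comm (b ^ l.length)]
      omega
    · have h1 : (d + b * c) % b = d := by
        rw [Nat.add_mul_mod_self_left, Nat.mod_eq_of_lt hd]
      have h2 : (d + b * c) / b = c := by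
        rw [Nat.add_mul_div_left _ _ hb, Nat.div_eq_of_lt hd, Nat.zero_add]
      rw [e1, Function.iterate_succ_apply]
      unfold dstep at he ⊢
      simp only [h1, h2]
      rw [he]
      simp

theorem digs_surj {b : ℕ} (hb : 0 < b) {l : List ℕ} (h : ∀ a ∈ l, a < b) :
    ∃ c < b ^ l.length, digs b l.length c = l := by
  obtain ⟨c, hc, he⟩ := dstep_surj b hb l [] h
  exact ⟨c, hc, by unfold digs; rw [he, List.append_nil]⟩

/-! ### The algorithm -/

/-- the positions in the second genome -/
def yl (G₁ G₂ : List ℕ) : List ℕ :=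
  G₁.map fun a => ((List.range G₂.length).filter fun j => decide (G₂.getD j 0 = a)).sum

theorem yl_length (G₁ G₂ : List ℕ) : (yl G₁ G₂).length = G₁.length := List.length_map _

theorem filter_idx {G : List ℕ} (hnd : G.Nodup) {a : ℕ} (ha : a ∈ G) :
    ((List.range G.length).filter fun j => decide (G.getD j 0 = a)) = [G.idxOf a] := by
  have hlt := List.idxOf_lt_length_of_mem ha
  refine List.Pairwise.eq_of_mem_iff (r := (· < ·)) ?_ (List.pairwise_singleton _ _) ?_
  · exact List.Pairwise.filter _ List.pairwise_lt_range
  · intro j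
    rw [List.mem_filter, List.mem_range, decide_eq_true_eq, List.mem_singleton]
    constructor
    · rintro ⟨h1, h2⟩
      rw [List.getD_eq_getElem _ _ h1] at h2
      rw [← h2, hnd.idxOf_getElem j h1]
    · rintro rfl
      exact ⟨hlt, by rw [List.getD_eq_getElem _ _ hlt, List.getElem_idxOf]⟩

theorem yl_get {G₁ G₂ : List ℕ} (hnd : G₁.Nodup) (hp : G₂.Perm G₁) {t : ℕ}
    (ht : t < G₁.length) : (yl G₁ G₂).getD t 0 = Yf G₁ G₂ t := by
  have h1 : t < (yl G₁ G₂).length := by rw [yl_length]; exact ht
  rw [List.getD_eq_getElem _ _ h1]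
  unfold yl Yf
  rw [List.getElem_map, List.getD_eq_getElem _ _ ht,
    filter_idx (hp.nodup_iff.2 hnd) (hp.mem_iff.2 (List.getElem_mem _))]
  simp

/-- the test for permutations -/
def valid (I : (List ℕ × List ℕ) × ℕ) : Bool :=
  ((List.range I.1.1.length).all fun i => (List.range I.1.1.length).all fun j =>
    decide (i = j) || !decide (I.1.1.getD i 0 = I.1.1.getD j 0)) &&
  decide (I.1.2.length ≤ I.1.1.length) && I.1.1.all fun a => decide (a ∈ I.1.2)

theorem valid_iff (I : (List ℕ × List ℕ) × ℕ) : valid I = true ↔ IsInput I := by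
  unfold valid IsInput
  simp only [Bool.and_eq_true, List.all_eq_true, List.mem_range, Bool.or_eq_true,
    decide_eq_true_eq, Bool.not_eq_true', decide_eq_false_iff_not]
  constructor
  · rintro ⟨⟨h1, h2⟩, h3⟩
    have hnd : I.1.1.Nodup := by
      rw [List.nodup_iff_pairwise_ne, List.pairwise_iff_getElem]
      intro i j hi hj hij
      have h4 := (h1 i hi j hj).resolve_left hij.ne
      rwa [List.getD_eq_getElem _ _ hi, List.getD_eq_getElem _ _ hj] at h4
    refine ⟨hnd, ?_⟩
    exact ((List.subperm_of_subset hnd h3).perm_of_length_le h2).symm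
  · rintro ⟨h1, h2⟩
    refine ⟨⟨?_, h2.length_eq.le⟩, fun a ha => h2.mem_iff.2 ha⟩
    intro i hi j hj
    by_cases hij : i = j
    · exact Or.inl hij
    · right
      rw [List.getD_eq_getElem _ _ hi, List.getD_eq_getElem _ _ hj]
      intro h
      exact hij ((List.Nodup.getElem_inj_iff h1).1 h)

/-- the algorithm; `P` is a large number -/
def algP (I : (List ℕ × List ℕ) × ℕ) (P : ℕ) : Bool :=
  valid I &&
  (!(rem (fun t => (yl I.1.1 I.1.2).getD t 0) (yl I.1.1 I.1.2).length (min (I.2 + 2) P)).isEmpty ||
  [I.2, I.2 + 1].any fun m => (List.range P).any fun c₁ => (List.range P).any fun c₂ =>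
    good (min m P) (digs (I.2 + 2) (min m P) c₁) &&
    chk (fun t => (yl I.1.1 I.1.2).getD t 0) (yl I.1.1 I.1.2).length (min m P)
      (digs (I.2 + 2) (min m P) c₁)
      ((digs (I.2 + 2) (min m P) c₂).map fun v => min v P))

theorem good_iff {m : ℕ} {w : List ℕ} (hlen : w.length = m) : good m w = true ↔
    w.Perm (List.range m) ∧ Gd w := by
  unfold good
  simp only [List.all_eq_true, List.mem_range, Bool.and_eq_true, decide_eq_true_eq,
    Bool.or_eq_true, adjw_iff]
  constructor
  · intro h
    have hp : w.Perm (List.range m) := by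
      have h1 : List.Subperm (List.range m) w := List.subperm_of_subset List.nodup_range
        fun i hi => (h i (List.mem_range.1 hi)).1
      exact (h1.perm_of_length_le (by rw [hlen, List.length_range])).symm
    exact ⟨hp, fun i hi => (h i (List.mem_range.1 (hp.mem_iff.1 hi))).2⟩
  · rintro ⟨h1, h2⟩ i hi
    have h3 : i ∈ w := h1.mem_iff.2 (List.mem_range.2 hi)
    exact ⟨h3, h2 i h3⟩

theorem gd_range {m : ℕ} (hm : 2 ≤ m) : Gd (List.range m) := by
  have key : ∀ i, i + 1 < m → [i, i + 1] <:+: List.range m := by
    intro i hi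
    refine ⟨List.range i, (List.range (m - (i + 2))).map (fun j => i + 2 + j), ?_⟩
    have h1 : List.range m = List.range (i + 2 + (m - (i + 2))) := by congr 1; omega
    rw [h1, List.range_add]
    congr 1
    rw [List.range_succ, List.range_succ, List.append_assoc]
    rfl
  intro i hi
  rw [List.mem_range] at hi
  by_cases h : i + 1 < m
  · exact Or.inl (key i h)
  · right
    refine ⟨by omega, ?_⟩
    have := key (i - 1) (by omega)
    rwa [Nat.sub_add_cancel (by omega)] at this

theorem algP_correct (I : (List ℕ × List ℕ) × ℕ) {P : ℕ} (hP : I.2 + 2 ≤ P)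
    (hP' : (I.2 + 2) ^ (I.2 + 1) ≤ P) : algP I P = true ↔ IsInput I ∧ MSR I := by
  obtain ⟨⟨G₁, G₂⟩, k⟩ := I
  unfold algP
  rw [Bool.and_eq_true, valid_iff]
  refine and_congr_right fun hI => ?_
  obtain ⟨hnd, hp⟩ := hI
  simp only at hnd hp hP hP' ⊢
  set Y : ℕ → ℕ := fun t => (yl G₁ G₂).getD t 0 with hYdef
  have hYf : ∀ t < G₁.length, Y t = Yf G₁ G₂ t := fun t ht => yl_get hnd hp ht
  rw [yl_length, min_eq_left hP, Bool.or_eq_true]
  constructor
  · rintro (h | h)
    · -- a long increasing subsequence
      have hne : rem Y G₁.length (k + 2) ≠ [] := by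
        intro he
        rw [he] at h
        simp at h
      obtain ⟨t, ht⟩ := List.exists_mem_of_ne_nil _ hne
      obtain ⟨c, _, hn, hch⟩ := chain_of_rem (k + 2) t ht
      have hmono : ∀ i j, i < j → j ≤ k + 2 → c i < c j ∧ Y (c i) < Y (c j) := by
        intro i j hij
        induction j with
        | zero => omega
        | succ j ih =>
          intro hj
          have h1 := hch j (by omega)
          rcases Nat.lt_succ_iff_lt_or_eq.1 hij with h2 | h2
          · have h3 := ih h2 (by omega)
            exact ⟨h3.1.trans h1.1, h3.2.trans h1.2⟩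
          · subst h2
            exact h1
      refine msr_of_emb (m := k + 2) (w := List.range (k + 2)) (x := c) hp (List.Perm.refl _)
        (gd_range (by omega)) ⟨fun i hi => hn i (by omega), fun i j hij hj =>
          (hmono i j hij (by omega)).1, ?_⟩ (by omega)
      refine (List.pairwise_lt_range (n := k + 2)).imp_of_mem ?_
      intro i j hi hj hij
      rw [List.mem_range] at hi hj
      rw [← hYf _ (hn i (by omega)), ← hYf _ (hn j (by omega))]
      exact (hmono i j hij (by omega)).2
    · simp only [List.any_cons, List.any_nil, Bool.or_false, Bool.or_eq_true] at h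
      have hmain : ∀ m, k ≤ m → m ≤ k + 1 →
          ((List.range P).any fun c₁ => (List.range P).any fun c₂ =>
            good (min m P) (digs (k + 2) (min m P) c₁) &&
            chk Y G₁.length (min m P) (digs (k + 2) (min m P) c₁)
              ((digs (k + 2) (min m P) c₂).map fun v => min v P)) = true →
          MSR ((G₁, G₂), k) := by
        intro m hkm hm h
        simp only [List.any_eq_true, List.mem_range, Bool.and_eq_true] at h
        obtain ⟨c₁, _, c₂, _, hg, hc⟩ := h
        rw [min_eq_left (by omega)] at hg hc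
        obtain ⟨hg1, hg2⟩ := (good_iff (digs_length _ _ _)).1 hg
        rw [chk_iff (fun i hi => List.mem_range.1 (hg1.mem_iff.1 hi))] at hc
        obtain ⟨x, h1, h2, h3⟩ := hc
        refine msr_of_emb hp hg1 hg2 (x := x) ⟨fun i hi => cls_lt (h1 i hi), h2, ?_⟩ hkm
        refine h3.imp_of_mem ?_
        intro i j hi hj hij
        have hi' := List.mem_range.1 (hg1.mem_iff.1 hi)
        have hj' := List.mem_range.1 (hg1.mem_iff.1 hj)
        rw [← hYf _ (cls_lt (h1 i hi')), ← hYf _ (cls_lt (h1 j hj'))]
        exact hij
      rcases h with h | h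
      · exact hmain k le_rfl (by omega) h
      · exact hmain (k + 1) (by omega) le_rfl h
  · intro h
    obtain ⟨m, w, x, hkm, hm, hw, hgd, hx1, hx2, hx3⟩ := emb_of_msr hnd hp h
    by_cases hrem : rem Y G₁.length (k + 2) = []
    · right
      have hcl : ∀ i, ∃ r, i < m → r < k + 2 ∧ cls Y G₁.length r (x i) = true := by
        intro i
        by_cases hi : i < m
        · obtain ⟨r, hr, hc⟩ := exists_cls hrem (hx1 i hi)
          exact ⟨r, fun _ => ⟨hr, hc⟩⟩
        · exact ⟨0, fun h => absurd h hi⟩
      choose ρ hρ using hcl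
      have hwlen : w.length = m := by rw [hw.length_eq, List.length_range]
      obtain ⟨c₁, hc₁, hd₁⟩ := digs_surj (b := k + 2) (by omega) (l := w) (fun a ha => by
        have := List.mem_range.1 (hw.mem_iff.1 ha)
        omega)
      obtain ⟨c₂, hc₂, hd₂⟩ := digs_surj (b := k + 2) (by omega) (l := (List.range m).map ρ)
        (fun a ha => by
          obtain ⟨i, hi, rfl⟩ := List.mem_map.1 ha
          exact (hρ i (List.mem_range.1 hi)).1)
      rw [hwlen] at hc₁ hd₁
      have hlen2 : ((List.range m).map ρ).length = m := by simp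
      rw [hlen2] at hc₂ hd₂
      have hpow : (k + 2) ^ m ≤ P := (Nat.pow_le_pow_right (by omega) hm).trans hP'
      have hmain : ((List.range P).any fun c₁ => (List.range P).any fun c₂ =>
            good (min m P) (digs (k + 2) (min m P) c₁) &&
            chk Y G₁.length (min m P) (digs (k + 2) (min m P) c₁)
              ((digs (k + 2) (min m P) c₂).map fun v => min v P)) = true := by
        simp only [List.any_eq_true, List.mem_range, Bool.and_eq_true]
        refine ⟨c₁, by omega, c₂, by omega, ?_⟩
        rw [min_eq_left (by omega : m ≤ P), hd₁, hd₂]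
        refine ⟨(good_iff hwlen).2 ⟨hw, hgd⟩, ?_⟩
        rw [chk_iff (fun i hi => List.mem_range.1 (hw.mem_iff.1 hi))]
        refine ⟨x, ?_, hx2, ?_⟩
        · intro i hi
          have h1 : (((List.range m).map ρ).map fun v => min v P).getD i 0 = ρ i := by
            have h2 : i < (((List.range m).map ρ).map fun v => min v P).length := by simpa using hi
            rw [List.getD_eq_getElem _ _ h2]
            simp only [List.getElem_map, List.getElem_range]
            have := (hρ i hi).1
            omega
          rw [h1]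
          exact (hρ i hi).2
        · refine hx3.imp_of_mem ?_
          intro i j hi hj hij
          have hi' := List.mem_range.1 (hw.mem_iff.1 hi)
          have hj' := List.mem_range.1 (hw.mem_iff.1 hj)
          rw [hYf _ (hx1 i hi'), hYf _ (hx1 j hj')]
          exact hij
      simp only [List.any_cons, List.any_nil, Bool.or_false, Bool.or_eq_true]
      rcases (show m = k ∨ m = k + 1 by omega) with rfl | rfl
      · exact Or.inl hmain
      · exact Or.inr hmain
    · left
      rw [Bool.not_eq_true', List.isEmpty_eq_false_iff]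
      exact hrem

end Pool.Agent.V11225.MS
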