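import Mathlib

/-!
# Maximal strip recovery on two permutations: the core algorithm

A permutation is given by a function `Y` on `0, …, n - 1`. The positions are distributed to classes
(by the length of a longest increasing subsequence which ends there); `Y` is decreasing on every
class. A pattern is embedded by a closure computation.
-/

namespace Pool.Agent.V11225.MS

/-! ### Closures -/

section clo

variable {X : Type} [DecidableEq X] (R : X → X → Bool) (S : List X) (I : X → Bool)

/-- one round -/
def rnd (L : List X) : List X := S.filter fun y => decide (y ∈ L) || L.any fun z => R z y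

/-- the closure -/
def clo : List X := (rnd R S)^[S.length] (S.filter I)

variable {R S I} {x y : X}

theorem mem_rnd {L : List X} : y ∈ rnd R S L ↔ y ∈ S ∧ (y ∈ L ∨ ∃ z ∈ L, R z y = true) := by
  unfold rnd
  simp only [List.mem_filter, Bool.or_eq_true, decide_eq_true_eq, List.any_eq_true]

theorem it_sub (k : ℕ) : ∀ y ∈ (rnd R S)^[k] (S.filter I), y ∈ S := by
  cases k with
  | zero =>
    intro y hy
    exact List.mem_of_mem_filter hy
  | succ k =>
    intro y hy
    rw [Function.iterate_succ_apply'] at hy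
    exact (mem_rnd.1 hy).1

theorem it_step (k : ℕ) : ∀ y ∈ (rnd R S)^[k] (S.filter I), y ∈ (rnd R S)^[k + 1] (S.filter I) := by
  intro y hy
  rw [Function.iterate_succ_apply', mem_rnd]
  exact ⟨it_sub k y hy, Or.inl hy⟩

theorem it_stable (k : ℕ) :
    (∀ y ∈ (rnd R S)^[k + 1] (S.filter I), y ∈ (rnd R S)^[k] (S.filter I)) ∨
    k ≤ ((rnd R S)^[k] (S.filter I)).toFinset.card := by
  induction k with
  | zero => exact Or.inr (Nat.zero_le _)
  | succ k ih =>
    by_cases hst : ∀ y ∈ (rnd R S)^[k + 1] (S.filter I), y ∈ (rnd R S)^[k] (S.filter I)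
    · left
      intro y hy
      rw [Function.iterate_succ_apply', mem_rnd] at hy
      rw [Function.iterate_succ_apply', mem_rnd]
      obtain ⟨hyS, hy | ⟨z, hz, hzy⟩⟩ := hy
      · exact ⟨hyS, Or.inl (hst y hy)⟩
      · exact ⟨hyS, Or.inr ⟨z, hst z hz, hzy⟩⟩
    · right
      rcases ih with h | h
      · exact absurd h hst
      · have hlt : ((rnd R S)^[k] (S.filter I)).toFinset ⊂
            ((rnd R S)^[k + 1] (S.filter I)).toFinset := by
          rw [Finset.ssubset_iff_subset_ne]
          refine ⟨fun y hy => ?_, fun he => hst fun y hy => ?_⟩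
          · rw [List.mem_toFinset] at hy ⊢
            exact it_step k y hy
          · rw [← List.mem_toFinset, ← he, List.mem_toFinset] at hy
            exact hy
        have := Finset.card_lt_card hlt
        omega

theorem clo_stable : ∀ y ∈ (rnd R S)^[S.length + 1] (S.filter I), y ∈ clo R S I := by
  rcases it_stable (R := R) (S := S) (I := I) S.length with h | h
  · exact h
  · intro y hy
    have h1 : ((rnd R S)^[S.length] (S.filter I)).toFinset ⊆ S.toFinset := by
      intro y hy
      rw [List.mem_toFinset] at hy ⊢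
      exact it_sub _ y hy
    have h2 := S.toFinset_card_le
    have h3 := Finset.eq_of_subset_of_card_le h1 (h2.trans h)
    have h4 : y ∈ S.toFinset := List.mem_toFinset.2 (it_sub _ y hy)
    rw [← h3, List.mem_toFinset] at h4
    exact h4

theorem clo_init (hy : y ∈ S) (hI : I y = true) : y ∈ clo R S I := by
  have h : ∀ k, y ∈ (rnd R S)^[k] (S.filter I) := by
    intro k
    induction k with
    | zero => exact List.mem_filter.2 ⟨hy, hI⟩
    | succ k ih => exact it_step k y ih
  exact h _

theorem clo_step (hx : x ∈ clo R S I) (hy : y ∈ S) (h : R x y = true) : y ∈ clo R S I := by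
  apply clo_stable
  rw [Function.iterate_succ_apply', mem_rnd]
  exact ⟨hy, Or.inr ⟨x, hx, h⟩⟩

theorem clo_ind (P : X → Prop) (h0 : ∀ y ∈ S, I y = true → P y)
    (h1 : ∀ x y, P x → y ∈ S → R x y = true → P y) : ∀ y ∈ clo R S I, P y := by
  have h : ∀ k, ∀ y ∈ (rnd R S)^[k] (S.filter I), P y := by
    intro k
    induction k with
    | zero =>
      intro y hy
      obtain ⟨h2, h3⟩ := List.mem_filter.1 hy
      exact h0 y h2 h3
    | succ k ih =>
      intro y hy
      rw [Function.iterate_succ_apply', mem_rnd] at hy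
      obtain ⟨hyS, hy | ⟨z, hz, hzy⟩⟩ := hy
      · exact ih y hy
      · exact h1 z y (ih z hz) hyS hzy
  exact h _

end clo

/-! ### The classes -/

variable {Y : ℕ → ℕ} {n r s t : ℕ}

/-- one round of peeling -/
def peel (Y : ℕ → ℕ) (L : List ℕ) : List ℕ :=
  L.filter fun t => L.any fun s => decide (s < t) && decide (Y s < Y t)

/-- what remains after `r` rounds -/
def rem (Y : ℕ → ℕ) (n r : ℕ) : List ℕ := (peel Y)^[r] (List.range n)

theorem mem_peel {L : List ℕ} : t ∈ peel Y L ↔ t ∈ L ∧ ∃ s ∈ L, s < t ∧ Y s < Y t := by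
  unfold peel
  simp only [List.mem_filter, List.any_eq_true, Bool.and_eq_true, decide_eq_true_eq]

theorem rem_succ : rem Y n (r + 1) = peel Y (rem Y n r) := Function.iterate_succ_apply' ..

theorem rem_lt : ∀ r, t ∈ rem Y n r → t < n
  | 0, h => List.mem_range.1 h
  | r + 1, h => rem_lt r (mem_peel.1 (rem_succ ▸ h)).1

/-- the class number `r` -/
def cls (Y : ℕ → ℕ) (n r t : ℕ) : Bool := decide (t ∈ rem Y n r) && !decide (t ∈ rem Y n (r + 1))

theorem cls_iff : cls Y n r t = true ↔ t ∈ rem Y n r ∧ t ∉ rem Y n (r + 1) := by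
  unfold cls
  simp

theorem cls_lt (h : cls Y n r t = true) : t < n := rem_lt r (cls_iff.1 h).1

theorem cls_anti (h1 : cls Y n r s = true) (h2 : cls Y n r t = true) (hst : s < t) :
    ¬ Y s < Y t := by
  intro h
  rw [cls_iff] at h1 h2
  apply h2.2
  rw [rem_succ, mem_peel]
  exact ⟨h2.1, s, h1.1, hst, h⟩

theorem chain_of_rem : ∀ (r t : ℕ), t ∈ rem Y n r → ∃ c : ℕ → ℕ, c r = t ∧
    (∀ i ≤ r, c i < n) ∧ ∀ i < r, c i < c (i + 1) ∧ Y (c i) < Y (c (i + 1))
  | 0, t, h => ⟨fun _ => t, rfl, fun _ _ => List.mem_range.1 h, fun i hi => absurd hi (by omega)⟩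
  | r + 1, t, h => by
    rw [rem_succ, mem_peel] at h
    obtain ⟨h0, s, hs, hst, hY⟩ := h
    obtain ⟨c, hc, hn, hch⟩ := chain_of_rem r s hs
    refine ⟨fun i => if i ≤ r then c i else t, ?_, ?_, ?_⟩
    · simp
    · intro i hi
      simp only
      split_ifs with h
      · exact hn i h
      · exact rem_lt r h0
    · intro i hi
      simp only
      by_cases h : i < r
      · rw [if_pos h.le, if_pos (Nat.succ_le_of_lt h)]
        exact hch i h
      · have : i = r := by omega
        subst this
        rw [if_pos le_rfl, if_neg (by omega), hc]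
        exact ⟨hst, hY⟩

theorem exists_cls {R : ℕ} (hR : rem Y n R = []) (ht : t < n) :
    ∃ r < R, cls Y n r t = true := by
  classical
  have hex : ∃ r, t ∉ rem Y n r := ⟨R, by rw [hR]; exact List.not_mem_nil⟩
  have h1 := Nat.find_spec hex
  have h2 : Nat.find hex ≤ R := Nat.find_min' hex (by rw [hR]; exact List.not_mem_nil)
  have h3 : Nat.find hex ≠ 0 := by
    intro h
    rw [h] at h1
    exact h1 (List.mem_range.2 ht)
  obtain ⟨r, hr⟩ := Nat.exists_eq_succ_of_ne_zero h3
  refine ⟨r, by omega, cls_iff.2 ⟨?_, ?_⟩⟩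
  · by_contra h
    have := Nat.find_min' hex h
    omega
  · rw [hr] at h1
    exact h1

/-! ### Embedding a pattern -/

/-- `i` comes before `j` in the list `w` -/
def bef (w : List ℕ) (i j : ℕ) : Bool :=
  (List.range w.length).any fun a => (List.range w.length).any fun b =>
    decide (a < b) && decide (w.getD a 0 = i) && decide (w.getD b 0 = j)

theorem pairwise_iff_bef {w : List ℕ} {P : ℕ → ℕ → Prop} :
    w.Pairwise P ↔ ∀ i j, bef w i j = true → P i j := by
  rw [List.pairwise_iff_getElem]
  constructor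
  · intro h i j hij
    unfold bef at hij
    simp only [List.any_eq_true, List.mem_range, Bool.and_eq_true, decide_eq_true_eq] at hij
    obtain ⟨a, ha, b, hb, ⟨hab, rfl⟩, rfl⟩ := hij
    rw [List.getD_eq_getElem _ _ ha, List.getD_eq_getElem _ _ hb]
    exact h a b ha hb hab
  · intro h a b ha hb hab
    apply h
    unfold bef
    simp only [List.any_eq_true, List.mem_range, Bool.and_eq_true, decide_eq_true_eq]
    exact ⟨a, ha, b, hb, ⟨hab, List.getD_eq_getElem _ _ ha⟩, List.getD_eq_getElem _ _ hb⟩

/-- the implications: a node `(i, t)` says that the point number `i` has position at least `t` -/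
def edge (Y : ℕ → ℕ) (n : ℕ) (w r : List ℕ) (p q : ℕ × ℕ) : Bool :=
  (decide (q.1 = p.1) && decide (q.2 = p.2 + 1) && !cls Y n (r.getD p.1 0) p.2) ||
  (decide (p.1 < q.1) && decide (q.2 = p.2 + 1)) ||
  (cls Y n (r.getD p.1 0) p.2 && bef w q.1 p.1 && decide (1 ≤ q.2) &&
    cls Y n (r.getD q.1 0) (q.2 - 1) && !decide (Y (q.2 - 1) < Y p.2))

/-- the nodes -/
def nodes (m n : ℕ) : List (ℕ × ℕ) :=
  (List.range m).flatMap fun i => (List.range (n + 1)).map fun t => (i, t)

theorem mem_nodes {m n i t : ℕ} : (i, t) ∈ nodes m n ↔ i < m ∧ t ≤ n := by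
  unfold nodes
  simp only [List.mem_flatMap, List.mem_range, List.mem_map, Prod.mk.injEq]
  constructor
  · rintro ⟨i', hi, t', ht, rfl, rfl⟩
    exact ⟨hi, by omega⟩
  · rintro ⟨hi, ht⟩
    exact ⟨i, hi, t, by omega, rfl, rfl⟩

/-- the test -/
def chk (Y : ℕ → ℕ) (n m : ℕ) (w r : List ℕ) : Bool :=
  (List.range m).all fun i =>
    !decide ((i, n) ∈ clo (edge Y n w r) (nodes m n) (fun p => decide (p.2 = 0)))

theorem chk_iff {m : ℕ} {w r : List ℕ} (hw : ∀ i ∈ w, i < m) : chk Y n m w r = true ↔
    ∃ x : ℕ → ℕ, (∀ i < m, cls Y n (r.getD i 0) (x i) = true) ∧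
      (∀ i j, i < j → j < m → x i < x j) ∧ w.Pairwise fun i j => Y (x i) < Y (x j) := by
  classical
  have hbef : ∀ i j, bef w i j = true → i < m ∧ j < m := by
    intro i j hij
    unfold bef at hij
    simp only [List.any_eq_true, List.mem_range, Bool.and_eq_true, decide_eq_true_eq] at hij
    obtain ⟨a, ha, b, hb, ⟨hab, rfl⟩, rfl⟩ := hij
    rw [List.getD_eq_getElem _ _ ha, List.getD_eq_getElem _ _ hb]
    exact ⟨hw _ (List.getElem_mem _), hw _ (List.getElem_mem _)⟩
  unfold chk
  simp only [List.all_eq_true, List.mem_range, Bool.not_eq_true', decide_eq_false_iff_not]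
  set C := clo (edge Y n w r) (nodes m n) (fun p => decide (p.2 = 0)) with hC
  constructor
  · intro h
    let T : ℕ → ℕ := fun i => Nat.findGreatest (fun t => (i, t) ∈ C) n
    have hT : ∀ i < m, (i, T i) ∈ C := by
      intro i hi
      refine Nat.findGreatest_spec (P := fun t => (i, t) ∈ C) (Nat.zero_le n) ?_
      exact clo_init (mem_nodes.2 ⟨hi, Nat.zero_le _⟩) (by simp)
    have hTle : ∀ i, T i ≤ n := fun i => Nat.findGreatest_le n
    have hmax : ∀ i t, t ≤ n → (i, t) ∈ C → t ≤ T i := by
      intro i t ht hit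
      exact Nat.le_findGreatest (P := fun t => (i, t) ∈ C) ht hit
    have hlt : ∀ i < m, T i < n := by
      intro i hi
      refine lt_of_le_of_ne (hTle i) fun he => h i hi ?_
      have := hT i hi
      rwa [he] at this
    have hcls : ∀ i < m, cls Y n (r.getD i 0) (T i) = true := by
      intro i hi
      by_contra hc
      have h1 := hlt i hi
      have h2 : (i, T i + 1) ∈ C := by
        refine clo_step (hT i hi) (mem_nodes.2 ⟨hi, h1⟩) ?_
        unfold edge
        simp only [Bool.or_eq_true, Bool.and_eq_true, decide_eq_true_eq, Bool.not_eq_true']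
        exact Or.inl (Or.inl ⟨⟨trivial, trivial⟩, Bool.not_eq_true _ ▸ hc⟩)
      have := hmax i _ h1 h2
      omega
    refine ⟨T, hcls, ?_, ?_⟩
    · intro i j hij hj
      have h1 := hlt i (hij.trans hj)
      have h2 : (j, T i + 1) ∈ C := by
        refine clo_step (hT i (hij.trans hj)) (mem_nodes.2 ⟨hj, h1⟩) ?_
        unfold edge
        simp [hij]
      have := hmax j _ h1 h2
      omega
    · rw [pairwise_iff_bef]
      intro i j hij
      obtain ⟨hi, hj⟩ := hbef i j hij
      by_contra hc
      have h1 := hlt i hi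
      have h2 : (i, T i + 1) ∈ C := by
        refine clo_step (hT j hj) (mem_nodes.2 ⟨hi, h1⟩) ?_
        unfold edge
        simp only [Bool.or_eq_true, Bool.and_eq_true, decide_eq_true_eq, Bool.not_eq_true',
          decide_eq_false_iff_not, Nat.add_sub_cancel]
        exact Or.inr ⟨⟨⟨⟨hcls j hj, hij⟩, by omega⟩, hcls i hi⟩, hc⟩
      have := hmax i _ h1 h2
      omega
  · rintro ⟨x, hx, hinc, hpw⟩ i hi hmem
    rw [pairwise_iff_bef] at hpw
    have hP := clo_ind (R := edge Y n w r) (S := nodes m n) (I := fun p => decide (p.2 = 0))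
      (fun p => p.1 < m → p.2 ≤ x p.1) ?_ ?_ _ hmem hi
    · have := cls_lt (hx i hi)
      simp only at hP
      omega
    · rintro ⟨i, t⟩ _ h _
      simp only [decide_eq_true_eq] at h
      simp only [h]
      exact Nat.zero_le _
    · rintro ⟨i, t⟩ ⟨j, u⟩ hit hn he hj
      simp only at hit hj ⊢
      have hu := (mem_nodes.1 hn).2
      unfold edge at he
      simp only [Bool.or_eq_true, Bool.and_eq_true, decide_eq_true_eq, Bool.not_eq_true',
        decide_eq_false_iff_not] at he
      rcases he with (⟨⟨rfl, rfl⟩, hc⟩ | ⟨hij, rfl⟩) | ⟨⟨⟨⟨h1, h2⟩, h3⟩, h4⟩, h5⟩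
      · have h6 := hit hj
        have h7 : t ≠ x j := by
          rintro rfl
          rw [hx j hj] at hc
          exact absurd hc (by decide)
        omega
      · have h6 := hit (hij.trans hj)
        have h7 := hinc i j hij hj
        omega
      · have hi := (hbef j i h2).2
        have h6 := hit hi
        have h7 := hpw j i h2
        have h8 : Y (x i) ≤ Y t := by
          rcases h6.eq_or_lt with h | h
          · rw [h]
          · exact not_lt.1 (cls_anti h1 (hx i hi) h)
        by_contra hc
        have h9 : Y (u - 1) ≤ Y (x j) := by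
          rcases (show x j ≤ u - 1 by omega).eq_or_lt with h | h
          · rw [h]
          · exact not_lt.1 (cls_anti (hx j hj) h4 h)
        omega

end Pool.Agent.V11225.MS
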