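import Mathlib

/-!
# Maximal strip recovery on two permutations: definitions
-/

namespace Pool.Agent.V11225.MS

/-- Two sequences `S₁`, `S₂` have a common strip partition: each of them can be cut into consecutive
blocks of length at least `2`, and the blocks of `S₂` are the blocks of `S₁` (in any order). -/
def CommonStrips (S₁ S₂ : List ℕ) : Prop :=
  ∃ B₁ B₂ : List (List ℕ), B₁.flatten = S₁ ∧ B₂.flatten = S₂ ∧ B₁.Perm B₂ ∧
    ∀ b ∈ B₁, 2 ≤ b.length

/-- The two genomes are permutations of the same set of characters. -/
def IsInput (I : (List ℕ × List ℕ) × ℕ) : Prop := I.1.1.Nodup ∧ I.1.2.Perm I.1.1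

/-- **Maximal strip recovery**, instances `((G₁, G₂), k)`: there are subsequences of `G₁` and of `G₂`
which have a common strip partition and have length at least `k`. -/
def MSR (I : (List ℕ × List ℕ) × ℕ) : Prop :=
  ∃ S₁ S₂ : List ℕ, S₁.Sublist I.1.1 ∧ S₂.Sublist I.1.2 ∧ CommonStrips S₁ S₂ ∧ I.2 ≤ S₁.length

/-! ### Short solutions -/

theorem flatten_split (P Q : List (List ℕ)) (b : List ℕ) :
    (P ++ b :: Q).flatten = P.flatten ++ (b ++ Q.flatten) := by
  rw [List.flatten_append, List.flatten_cons]

theorem shrink_step {B B' : List (List ℕ)} (hp : B.Perm B') (h2 : ∀ b ∈ B, 2 ≤ b.length) {k : ℕ}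
    (hk : k + 2 ≤ B.flatten.length) : ∃ B₁ B₁' : List (List ℕ), B₁.Perm B₁' ∧
      (∀ b ∈ B₁, 2 ≤ b.length) ∧ B₁.flatten.Sublist B.flatten ∧ B₁'.flatten.Sublist B'.flatten ∧
      k ≤ B₁.flatten.length ∧ B₁.flatten.length < B.flatten.length := by
  by_cases h : ∃ b ∈ B, 3 ≤ b.length
  · obtain ⟨b, hb, hb3⟩ := h
    obtain ⟨P, Q, rfl⟩ := List.append_of_mem hb
    obtain ⟨P', Q', rfl⟩ := List.append_of_mem (hp.mem_iff.1 hb)
    have hpq : (P ++ Q).Perm (P' ++ Q') := by
      have h1 := (List.perm_middle (a := b) (l₁ := P) (l₂ := Q)).symm.trans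
        (hp.trans List.perm_middle)
      exact h1.cons_inv
    have hs : b.tail.Sublist b := List.tail_sublist b
    have hlen : b.tail.length = b.length - 1 := List.length_tail
    refine ⟨P ++ b.tail :: Q, P' ++ b.tail :: Q', ?_, ?_, ?_, ?_, ?_, ?_⟩
    · exact List.perm_middle.trans ((hpq.cons _).trans List.perm_middle.symm)
    · intro d hd
      rcases List.mem_append.1 hd with hd | hd
      · exact h2 d (List.mem_append_left _ hd)
      · rcases List.mem_cons.1 hd with rfl | hd
        · omega
        · exact h2 d (List.mem_append_right _ (List.mem_cons_of_mem _ hd))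
    · rw [flatten_split, flatten_split]
      exact (List.Sublist.refl _).append (hs.append (List.Sublist.refl _))
    · rw [flatten_split, flatten_split]
      exact (List.Sublist.refl _).append (hs.append (List.Sublist.refl _))
    · rw [flatten_split] at hk ⊢
      simp only [List.length_append] at hk ⊢
      omega
    · rw [flatten_split, flatten_split]
      simp only [List.length_append]
      omega
  · push Not at h
    have hne : B ≠ [] := by
      rintro rfl
      simp at hk
    obtain ⟨b, Q, rfl⟩ := List.exists_cons_of_ne_nil hne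
    have hb := h b List.mem_cons_self
    have hb' := h2 b List.mem_cons_self
    obtain ⟨P', Q', rfl⟩ := List.append_of_mem (hp.mem_iff.1 List.mem_cons_self)
    have hpq : Q.Perm (P' ++ Q') := (hp.trans List.perm_middle).cons_inv
    refine ⟨Q, P' ++ Q', hpq, fun d hd => h2 d (List.mem_cons_of_mem _ hd), ?_, ?_, ?_, ?_⟩
    · rw [List.flatten_cons]
      exact List.sublist_append_right _ _
    · rw [flatten_split, List.flatten_append]
      exact (List.Sublist.refl _).append (List.sublist_append_right _ _)
    · rw [List.flatten_cons, List.length_append] at hk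
      omega
    · rw [List.flatten_cons, List.length_append]
      omega

theorem shrink : ∀ (N : ℕ) {B B' : List (List ℕ)} (_ : B.flatten.length ≤ N) (_ : B.Perm B')
    (_ : ∀ b ∈ B, 2 ≤ b.length) {k : ℕ} (_ : k ≤ B.flatten.length),
    ∃ B₁ B₁' : List (List ℕ), B₁.Perm B₁' ∧
      (∀ b ∈ B₁, 2 ≤ b.length) ∧ B₁.flatten.Sublist B.flatten ∧ B₁'.flatten.Sublist B'.flatten ∧
      k ≤ B₁.flatten.length ∧ B₁.flatten.length ≤ k + 1
  | N, B, B', hN, hp, h2, k, hk => by
    by_cases h : B.flatten.length ≤ k + 1
    · exact ⟨B, B', hp, h2, List.Sublist.refl _, List.Sublist.refl _, hk, h⟩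
    · obtain ⟨B₁, B₁', h3, h4, h5, h6, h7, h8⟩ := shrink_step hp h2 (k := k) (by omega)
      cases N with
      | zero => omega
      | succ N =>
        obtain ⟨B₂, B₂', g3, g4, g5, g6, g7, g8⟩ := shrink N (B := B₁) (B' := B₁') (by omega) h3 h4 h7
        exact ⟨B₂, B₂', g3, g4, g5.trans h5, g6.trans h6, g7, g8⟩

/-! ### Patterns -/

/-- `a`, `b` are consecutive in `w` -/
def adjw (w : List ℕ) (a b : ℕ) : Bool := decide ((a, b) ∈ w.zip w.tail)

theorem adjw_iff {w : List ℕ} {a b : ℕ} : adjw w a b = true ↔ [a, b] <:+: w := by
  unfold adjw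
  rw [decide_eq_true_eq]
  induction w with
  | nil => simp
  | cons x l ih =>
    rw [List.infix_cons_iff]
    cases l with
    | nil =>
      simp [List.cons_prefix_cons]
    | cons y l' =>
      simp only [List.tail_cons] at ih ⊢
      rw [List.zip_cons_cons, List.mem_cons, ih, List.cons_prefix_cons, Prod.mk.injEq]
      refine or_congr_left ?_
      rw [List.cons_prefix_cons]
      simp

/-- the pattern `w` is good: every entry `i` has a partner -/
def good (m : ℕ) (w : List ℕ) : Bool :=
  (List.range m).all fun i => decide (i ∈ w) &&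
    (adjw w i (i + 1) || (decide (1 ≤ i) && adjw w (i - 1) i))

/-- every element has a partner -/
def Gd (w : List ℕ) : Prop :=
  ∀ i ∈ w, [i, i + 1] <:+: w ∨ (1 ≤ i ∧ [i - 1, i] <:+: w)

theorem infix_cons {a b x : ℕ} {l : List ℕ} (h : [a, b] <:+: x :: l) (hne : a ≠ x) :
    [a, b] <:+: l := by
  rcases List.infix_cons_iff.1 h with h | h
  · rw [List.cons_prefix_cons] at h
    exact absurd h.1 hne
  · exact h

/-- cutting a good list into intervals -/
theorem cut : ∀ (N : ℕ) (w : List ℕ) (_ : w.length ≤ N) (_ : w.Nodup) (_ : Gd w),
    ∃ B : List (List ℕ), B.flatten = w ∧ ∀ b ∈ B, ∃ a l, 2 ≤ l ∧ b = List.range' a l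
  | _, [], _, _, _ => ⟨[], rfl, by simp⟩
  | N, [a], _, _, hg => by
    exfalso
    rcases hg a (by simp) with h | h
    · have := h.length_le
      simp at this
    · have := h.2.length_le
      simp at this
  | N, a :: b :: w, hN, hnd, hg => by
    have ha : a ∉ b :: w := (List.nodup_cons.1 hnd).1
    have hb : b ∉ w := (List.nodup_cons.1 (List.nodup_cons.1 hnd).2).1
    have hba : b = a + 1 := by
      rcases hg a (by simp) with h | h
      · rcases List.infix_cons_iff.1 h with h | h
        · rw [List.cons_prefix_cons, List.cons_prefix_cons] at h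
          exact h.2.1.symm
        · exact absurd (h.subset (by simp)) ha
      · rcases List.infix_cons_iff.1 h.2 with h1 | h1
        · rw [List.cons_prefix_cons, List.cons_prefix_cons] at h1
          omega
        · exact absurd (h1.subset (by simp)) ha
    cases N with
    | zero => simp at hN
    | succ N =>
    simp only [List.length_cons] at hN
    by_cases hcase : [b, b + 1] <:+: b :: w
    · -- the run goes on
      have hg' : Gd (b :: w) := by
        intro i hi
        rcases List.mem_cons.1 hi with rfl | hi'
        · exact Or.inl hcase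
        · have hia : i ≠ a := fun h => ha (h ▸ hi)
          have hib : i ≠ b := fun h => hb (h ▸ hi')
          rcases hg i (List.mem_cons_of_mem _ hi) with h | h
          · exact Or.inl (infix_cons h hia)
          · refine Or.inr ⟨h.1, infix_cons h.2 ?_⟩
            intro h1
            omega
      obtain ⟨B, hB, hB2⟩ := cut N (b :: w) (by simp; omega) (List.nodup_cons.1 hnd).2 hg'
      cases B with
      | nil => simp at hB
      | cons d B =>
        obtain ⟨a', l, hl, rfl⟩ := hB2 d List.mem_cons_self
        have ha' : a' = b := by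
          cases l with
          | zero => omega
          | succ l =>
            rw [List.flatten_cons, List.range'_succ, List.cons_append] at hB
            exact (List.cons_eq_cons.1 hB).1
        subst ha'
        refine ⟨List.range' a (l + 1) :: B, ?_, ?_⟩
        · rw [List.flatten_cons, List.range'_succ, List.cons_append]
          rw [List.flatten_cons, hba] at hB
          rw [hB, hba]
        · intro d hd
          rcases List.mem_cons.1 hd with rfl | hd
          · exact ⟨a, l + 1, by omega, rfl⟩
          · exact hB2 d (List.mem_cons_of_mem _ hd)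
    · have hg' : Gd w := by
        intro i hi
        have hib : i ≠ b := fun h => hb (h ▸ hi)
        have hia : i ≠ a := fun h => ha (h ▸ List.mem_cons_of_mem _ hi)
        rcases hg i (List.mem_cons_of_mem _ (List.mem_cons_of_mem _ hi)) with h | h
        · exact Or.inl (infix_cons (infix_cons h hia) hib)
        · refine Or.inr ⟨h.1, ?_⟩
          have h1 : [i - 1, i] <:+: b :: w := infix_cons h.2 (by omega)
          by_cases h2 : i - 1 = b
          · exfalso
            apply hcase
            have h3 : i = b + 1 := by omega
            rw [h3, Nat.add_sub_cancel] at h1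
            exact h1
          · exact infix_cons h1 h2
      obtain ⟨B, hB, hB2⟩ := cut N w (by omega)
        (List.nodup_cons.1 (List.nodup_cons.1 hnd).2).2 hg'
      refine ⟨[a, b] :: B, ?_, ?_⟩
      · rw [List.flatten_cons, hB]
        rfl
      · intro d hd
        rcases List.mem_cons.1 hd with rfl | hd
        · exact ⟨a, 2, le_rfl, by rw [hba]; rfl⟩
        · exact hB2 d hd

end Pool.Agent.V11225.MS
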