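import Pool.Agent.V11225.MS.Alg
import Pool.Agent.H633R2.FptPad
import Pool.Agent.H671R2.PolyAuto

/-!
# Maximal strip recovery on two permutations is fixed-parameter tractable
-/

namespace Pool.Agent.V11225.MS

open Pool.Agent.NPC Pool.Agent.NPC.H633 Pool.Agent.H633R2

variable {α β : Type} [TEnc α] [TEnc β]

theorem sz_filter (p : β → Bool) (l : List β) : sz (l.filter p) ≤ sz l := by
  induction l with
  | nil => simp
  | cons b l ih =>
    cases h : p b
    · rw [List.filter_cons_of_neg (by simpa using h)]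
      simp only [sz_list_cons]
      omega
    · rw [List.filter_cons_of_pos h]
      simp only [sz_list_cons]
      omega

theorem p_iterU {s : α → β} {F : α → β → β} {n : α → ℕ} (hn : UPoly n) (hs : Poly s)
    (hF : Poly (fun p : α × β => F p.1 p.2)) (q : Polynomial ℕ)
    (hq : ∀ a, ∀ k ≤ n a, sz ((F a)^[k] (s a)) ≤ q.eval (sz a)) :
    Poly (fun a => (F a)^[n a] (s a)) := by
  have h : Poly (fun a => (F a)^[(List.replicate (n a) ()).length] (s a)) :=
    NPC.Poly.iterLen (l := fun a => List.replicate (n a) ()) hn hs hF q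
      (fun a k hk => hq a k (by simpa using hk))
  exact h.congr fun a => by rw [List.length_replicate]

theorem p_rngL {f : α → List β} (hf : Poly f) : Poly (fun a => List.range (f a).length) :=
  (UPoly.length hf).range

theorem p_rngL1 {f : α → List β} (hf : Poly f) :
    Poly (fun a => List.range ((f a).length + 1)) :=
  (UPoly.add (UPoly.length hf) (UPoly.const 1)).range

attribute [local fun_prop] p_rngL p_rngL1

/-- closures -/
theorem p_clo {X : Type} [TEnc X] [DecidableEq X] {R : α → X → X → Bool} {S : α → List X}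
    {I : α → X → Bool} (hR : Poly (fun p : α × X × X => R p.1 p.2.1 p.2.2)) (hS : Poly S)
    (hI : Poly (fun p : α × X => I p.1 p.2)) :
    Poly (fun a => clo (R a) (S a) (I a)) := by
  obtain ⟨q, hq⟩ := hS.sz_le
  unfold clo
  refine NPC.Poly.iterLen (l := S) (s := fun a => (S a).filter (I a))
    (F := fun a L => rnd (R a) (S a) L) hS ?_ ?_ q ?_
  · fun_prop
  · unfold rnd
    fun_prop
  · intro a k _
    cases k with
    | zero => exact (sz_filter _ _).trans (hq a)
    | succ k =>
      rw [Function.iterate_succ', Function.comp_apply]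
      exact (sz_filter _ _).trans (hq a)

theorem sz_rem (Y : ℕ → ℕ) (n : ℕ) : ∀ r, sz (rem Y n r) ≤ sz (List.range n)
  | 0 => le_rfl
  | r + 1 => by
    rw [rem_succ]
    exact (sz_filter _ _).trans (sz_rem Y n r)

theorem p_rem {Yl : α → List ℕ} {r : α → ℕ} (hY : Poly Yl) (hr : UPoly r) :
    Poly (fun a => rem (fun t => (Yl a).getD t 0) (Yl a).length (r a)) := by
  have h0 : Poly (fun a => List.range (Yl a).length) := p_rngL hY
  obtain ⟨q, hq⟩ := h0.sz_le
  unfold rem
  refine p_iterU (s := fun a => List.range (Yl a).length)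
    (F := fun a L => peel (fun t => (Yl a).getD t 0) L) hr h0 ?_ q ?_
  · unfold peel
    fun_prop
  · intro a k _
    exact (sz_rem _ _ k).trans (hq a)

theorem p_cls {Yl : α → List ℕ} {r t : α → ℕ} (hY : Poly Yl) (hr : UPoly r) (ht : Poly t) :
    Poly (fun a => cls (fun t => (Yl a).getD t 0) (Yl a).length (r a) (t a)) := by
  unfold cls
  have h1 := p_rem hY hr
  have h2 := p_rem hY (UPoly.add hr (UPoly.const 1))
  fun_prop

theorem p_bef {w : α → List ℕ} {i j : α → ℕ} (hw : Poly w) (hi : Poly i) (hj : Poly j) :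
    Poly (fun a => bef (w a) (i a) (j a)) := by
  unfold bef; fun_prop

theorem u_get {r : α → List ℕ} {P i : α → ℕ} (hr : Poly r) (hP : UPoly P) (hi : Poly i) :
    UPoly (fun a => ((r a).map fun v => min v (P a)).getD (i a) 0) := by
  have hP' : Poly P := hP.toPoly
  refine UPoly.of_le (n := P) (by fun_prop) hP fun a => ?_
  by_cases h : i a < ((r a).map fun v => min v (P a)).length
  · rw [List.getD_eq_getElem _ _ h, List.getElem_map]
    exact min_le_right _ _
  · rw [List.getD_eq_default _ _ (not_lt.1 h)]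
    exact Nat.zero_le _

theorem p_edge {Yl w r : α → List ℕ} {P : α → ℕ} {p q : α → ℕ × ℕ} (hY : Poly Yl) (hw : Poly w)
    (hr : Poly r) (hP : UPoly P) (hp : Poly p) (hq : Poly q) :
    Poly (fun a => edge (fun t => (Yl a).getD t 0) (Yl a).length (w a)
      ((r a).map fun v => min v (P a)) (p a) (q a)) := by
  unfold edge
  have hp1 : Poly (fun a => (p a).1) := by fun_prop
  have hp2 : Poly (fun a => (p a).2) := by fun_prop
  have hq1 : Poly (fun a => (q a).1) := by fun_prop
  have hq2 : Poly (fun a => (q a).2) := by fun_prop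
  have hq3 : Poly (fun a => (q a).2 - 1) := by fun_prop
  have h1 := p_cls hY (u_get hr hP hp1) hp2
  have h2 := p_cls hY (u_get hr hP hq1) hq3
  have h3 := p_bef hw hq1 hp1
  refine NPC.Poly.or (NPC.Poly.or (NPC.Poly.and ?_ (NPC.Poly.not h1)) ?_)
    (NPC.Poly.and (NPC.Poly.and (NPC.Poly.and (NPC.Poly.and h1 h3) ?_) h2) ?_)
  · fun_prop
  · fun_prop
  · fun_prop
  · fun_prop

theorem p_chk {Yl w r : α → List ℕ} {P m : α → ℕ} (hY : Poly Yl) (hw : Poly w)
    (hr : Poly r) (hP : UPoly P) (hm : UPoly m) :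
    Poly (fun a => chk (fun t => (Yl a).getD t 0) (Yl a).length (m a) (w a)
      ((r a).map fun v => min v (P a))) := by
  unfold chk
  have hm' : Poly (fun a => List.range (m a)) := hm.range
  have hS : Poly (fun a => nodes (m a) (Yl a).length) := by
    unfold nodes
    fun_prop
  have hC : Poly (fun a => clo (edge (fun t => (Yl a).getD t 0) (Yl a).length (w a)
      ((r a).map fun v => min v (P a))) (nodes (m a) (Yl a).length)
      (fun p : ℕ × ℕ => decide (p.2 = 0))) := by
    refine p_clo (R := fun a => edge (fun t => (Yl a).getD t 0) (Yl a).length (w a)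
      ((r a).map fun v => min v (P a))) (S := fun a => nodes (m a) (Yl a).length)
      (I := fun _ p => decide (p.2 = 0)) ?_ hS ?_
    · exact p_edge (Yl := fun x : α × (ℕ × ℕ) × (ℕ × ℕ) => Yl x.1) (w := fun x => w x.1)
        (r := fun x => r x.1) (P := fun x => P x.1) (p := fun x => x.2.1) (q := fun x => x.2.2)
        (by fun_prop) (by fun_prop) (by fun_prop) (hP.comp (Poly.fst Poly.id)) (by fun_prop)
        (by fun_prop)
    · fun_prop
  refine NPC.Poly.all (p := fun a i => !decide ((i, (Yl a).length) ∈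
    clo (edge (fun t => (Yl a).getD t 0) (Yl a).length (w a)
      ((r a).map fun v => min v (P a))) (nodes (m a) (Yl a).length)
      (fun p : ℕ × ℕ => decide (p.2 = 0)))) hm' ?_
  exact NPC.Poly.not (Poly.dec_mem (by fun_prop) (hC.comp (Poly.fst Poly.id)))

theorem p_good {m : α → ℕ} {w : α → List ℕ} (hm : UPoly m) (hw : Poly w) :
    Poly (fun a => good (m a) (w a)) := by
  unfold good adjw
  have hm' : Poly (fun a => List.range (m a)) := hm.range
  fun_prop

theorem dstep_bound (b : ℕ) (c : ℕ) : ∀ j, ((dstep b)^[j] (c, [])).1 ≤ c ∧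
    ∀ v ∈ ((dstep b)^[j] (c, [])).2, v ≤ c
  | 0 => ⟨le_rfl, by simp⟩
  | j + 1 => by
    obtain ⟨h1, h2⟩ := dstep_bound b c j
    rw [Function.iterate_succ_apply']
    unfold dstep at h1 h2 ⊢
    refine ⟨(Nat.div_le_self _ _).trans h1, ?_⟩
    intro v hv
    rcases List.mem_cons.1 hv with rfl | hv
    · exact (Nat.mod_le _ _).trans h1
    · exact h2 v hv

theorem sz_dstep (b c j : ℕ) : sz ((dstep b)^[j] (c, [])) ≤
    2 * sz c + (j * (2 * sz c + 1) + 1) + 1 := by
  obtain ⟨h1, h2⟩ := dstep_bound b c j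
  have h3 := dstep_length b j (c, [])
  have e : (dstep b)^[j] (c, []) = (((dstep b)^[j] (c, [])).1, ((dstep b)^[j] (c, [])).2) := rfl
  rw [e, sz_pair]
  have h4 := sz_nat_mono_le h1
  have h5 := sz_le_length_mul ((dstep b)^[j] (c, [])).2 (2 * sz c) (fun v hv =>
    sz_nat_mono_le (h2 v hv))
  rw [h3] at h5
  simp only [List.length_nil, Nat.add_zero] at h5
  omega

theorem p_digs {b L c : α → ℕ} (hb : Poly b) (hL : UPoly L) (hc : Poly c) :
    Poly (fun a => digs (b a) (L a) (c a)) := by
  unfold digs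
  obtain ⟨q, hq⟩ := hc.sz_le
  obtain ⟨q', hq'⟩ := NPC.Poly.sz_le hL
  have h := p_iterU (s := fun a => (c a, ([] : List ℕ))) (F := fun a s => dstep (b a) s) hL
    (by fun_prop) (by unfold dstep; fun_prop)
    (Polynomial.C 2 * q + (q' * (Polynomial.C 2 * q + Polynomial.C 1) + Polynomial.C 1) +
      Polynomial.C 1) (by
      intro a k hk
      refine (sz_dstep _ _ _).trans ?_
      have h1 := hq a
      have h2 := hq' a
      rw [sz_replicate_unit] at h2
      simp only [Polynomial.eval_add, Polynomial.eval_mul, Polynomial.eval_C]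
      have h3 : k * (2 * sz (c a) + 1) ≤ q'.eval (sz a) * (2 * q.eval (sz a) + 1) :=
        Nat.mul_le_mul (by omega) (by omega)
      omega)
  exact Poly.snd h

theorem p_valid {f : α → (List ℕ × List ℕ) × ℕ} (hf : Poly f) : Poly (fun a => valid (f a)) := by
  unfold valid; fun_prop

theorem p_yl {f g : α → List ℕ} (hf : Poly f) (hg : Poly g) : Poly (fun a => yl (f a) (g a)) := by
  unfold yl; fun_prop

/-- the algorithm, with the help of a long list -/
def alg (y : ((List ℕ × List ℕ) × ℕ) × List Unit) : Bool := algP y.1 y.2.length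

theorem p_alg : Poly alg := by
  unfold alg algP
  have hY : Poly (fun y : ((List ℕ × List ℕ) × ℕ) × List Unit => yl y.1.1.1 y.1.1.2) :=
    p_yl (by fun_prop) (by fun_prop)
  have hP : UPoly (fun y : ((List ℕ × List ℕ) × ℕ) × List Unit => y.2.length) :=
    UPoly.length (by fun_prop)
  have h1 : UPoly (fun y : ((List ℕ × List ℕ) × ℕ) × List Unit => min (y.1.2 + 2) y.2.length) :=
    UPoly.of_le (n := fun y => y.2.length) (by fun_prop) hP fun y => min_le_right _ _
  refine NPC.Poly.and (p_valid (by fun_prop)) (NPC.Poly.or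
    (NPC.Poly.not (NPC.Poly.isEmpty (p_rem hY h1))) ?_)
  refine NPC.Poly.any (p := fun (y : ((List ℕ × List ℕ) × ℕ) × List Unit) m =>
    (List.range y.2.length).any fun c₁ => (List.range y.2.length).any fun c₂ =>
    good (min m y.2.length) (digs (y.1.2 + 2) (min m y.2.length) c₁) &&
    chk (fun t => (yl y.1.1.1 y.1.1.2).getD t 0) (yl y.1.1.1 y.1.1.2).length (min m y.2.length)
      (digs (y.1.2 + 2) (min m y.2.length) c₁)
      ((digs (y.1.2 + 2) (min m y.2.length) c₂).map fun v => min v y.2.length))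
    (by fun_prop) ?_
  refine NPC.Poly.any (p := fun (y : (((List ℕ × List ℕ) × ℕ) × List Unit) × ℕ) c₁ =>
    (List.range y.1.2.length).any fun c₂ =>
    good (min y.2 y.1.2.length) (digs (y.1.1.2 + 2) (min y.2 y.1.2.length) c₁) &&
    chk (fun t => (yl y.1.1.1.1 y.1.1.1.2).getD t 0) (yl y.1.1.1.1 y.1.1.1.2).length
      (min y.2 y.1.2.length)
      (digs (y.1.1.2 + 2) (min y.2 y.1.2.length) c₁)
      ((digs (y.1.1.2 + 2) (min y.2 y.1.2.length) c₂).map fun v => min v y.1.2.length))
    (by fun_prop) ?_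
  refine NPC.Poly.any (p := fun (y : ((((List ℕ × List ℕ) × ℕ) × List Unit) × ℕ) × ℕ) c₂ =>
    good (min y.1.2 y.1.1.2.length) (digs (y.1.1.1.2 + 2) (min y.1.2 y.1.1.2.length) y.2) &&
    chk (fun t => (yl y.1.1.1.1.1 y.1.1.1.1.2).getD t 0) (yl y.1.1.1.1.1 y.1.1.1.1.2).length
      (min y.1.2 y.1.1.2.length)
      (digs (y.1.1.1.2 + 2) (min y.1.2 y.1.1.2.length) y.2)
      ((digs (y.1.1.1.2 + 2) (min y.1.2 y.1.1.2.length) c₂).map fun v => min v y.1.1.2.length))
    (by fun_prop) ?_
  have hP' : UPoly (fun z : (((((List ℕ × List ℕ) × ℕ) × List Unit) × ℕ) × ℕ) × ℕ =>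
      z.1.1.1.2.length) := UPoly.length (by fun_prop)
  have hm : UPoly (fun z : (((((List ℕ × List ℕ) × ℕ) × List Unit) × ℕ) × ℕ) × ℕ =>
      min z.1.1.2 z.1.1.1.2.length) :=
    UPoly.of_le (n := fun z => z.1.1.1.2.length) (by fun_prop) hP' fun y => min_le_right _ _
  have hw : Poly (fun z : (((((List ℕ × List ℕ) × ℕ) × List Unit) × ℕ) × ℕ) × ℕ =>
      digs (z.1.1.1.1.2 + 2) (min z.1.1.2 z.1.1.1.2.length) z.1.2) :=
    p_digs (by fun_prop) hm (by fun_prop)
  have hr : Poly (fun z : (((((List ℕ × List ℕ) × ℕ) × List Unit) × ℕ) × ℕ) × ℕ =>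
      digs (z.1.1.1.1.2 + 2) (min z.1.1.2 z.1.1.1.2.length) z.2) :=
    p_digs (by fun_prop) hm (by fun_prop)
  have hY' : Poly (fun z : (((((List ℕ × List ℕ) × ℕ) × List Unit) × ℕ) × ℕ) × ℕ =>
      yl z.1.1.1.1.1.1 z.1.1.1.1.1.2) := p_yl (by fun_prop) (by fun_prop)
  exact NPC.Poly.and (p_good hm hw) (p_chk hY' hw hr hP' hm)

/-- Maximal strip recovery on two permutations is fixed-parameter tractable. -/
theorem isFpt : IsFpt (fun I : (List ℕ × List ℕ) × ℕ => I.2) (fun I => IsInput I ∧ MSR I) := by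
  refine ⟨fun x => alg (x, List.replicate (2 ^ ((x.2 + 2) * (x.2 + 2))) ()), ?_, fun x => ?_⟩
  · have hF : UF (fun n => 2 ^ ((n + 2) * (n + 2))) :=
      UF.two_pow (UF.mul (UF.add UF.id (UF.const 2)) (UF.add UF.id (UF.const 2)))
    have h1 : FptTime (fun x : (List ℕ × List ℕ) × ℕ => x.2)
        (fun x => List.replicate (2 ^ ((x.2 + 2) * (x.2 + 2))) ()) :=
      UF.pad (κ := fun x : (List ℕ × List ℕ) × ℕ => x.2) hF (by fun_prop)
    exact FptTime.poly_comp p_alg ((FptTime.of_poly Poly.id).pair h1)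
  · unfold alg
    simp only [List.length_replicate]
    refine algP_correct x ?_ ?_
    · have h1 : x.2 + 2 < 2 ^ (x.2 + 2) := Nat.lt_two_pow_self
      have h2 : 2 ^ (x.2 + 2) ≤ 2 ^ ((x.2 + 2) * (x.2 + 2)) :=
        Nat.pow_le_pow_right (by omega) (Nat.le_mul_self _)
      omega
    · rw [pow_mul]
      have h1 : x.2 + 2 ≤ 2 ^ (x.2 + 2) := Nat.lt_two_pow_self.le
      exact (Nat.pow_le_pow_left h1 _).trans (Nat.pow_le_pow_right (by positivity) (by omega))

end Pool.Agent.V11225.MS
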